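import Pool.Agent.TH669.TF.Lin

/-!
# Transitive automorphism groups of twin-free graphs
-/

set_option autoImplicit false

namespace Pool.Agent.TH669.TF

variable {V : Type*} [Fintype V]

instance finite_aut (G : SimpleGraph V) : Finite (G ≃g G) :=
  Finite.of_injective (fun φ : G ≃g G => φ.toEquiv) (fun φ ψ h => by
    ext x
    exact congrArg (fun e : V ≃ V => e x) h)

theorem prime_le_card (G : SimpleGraph V) [DecidableRel G.Adj] (hG : TwinFree G) (p : ℕ)
    (hp : p.Prime) (hd : p ∣ Nat.card (G ≃g G)) : p ≤ (G.adjMatrix ℝ).rank + 1 := by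
  have : Fact p.Prime := ⟨hp⟩
  obtain ⟨φ, hφ⟩ := exists_prime_orderOf_dvd_card' p hd
  refine prime_le G hG p hp φ (hφ ▸ pow_orderOf_eq_one φ) ?_
  intro h
  rw [h, orderOf_one] at hφ
  exact hp.one_lt.ne hφ

/-- any two vertices are exchanged by an automorphism -/
def VertexTransitive (G : SimpleGraph V) : Prop := ∀ u v : V, ∃ φ : G ≃g G, φ u = v

/-- any two edges are exchanged by an automorphism -/
def EdgeTransitive (G : SimpleGraph V) : Prop :=
  ∀ e ∈ G.edgeSet, ∀ f ∈ G.edgeSet, ∃ φ : G ≃g G, Sym2.map φ e = f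

theorem dvd_of_trans (Γ X : Type*) [Group Γ] [Finite Γ] [MulAction Γ X] [Nonempty X]
    (h : ∀ x y : X, ∃ g : Γ, g • x = y) : Nat.card X ∣ Nat.card Γ := by
  have : MulAction.IsPretransitive Γ X := ⟨h⟩
  obtain ⟨x⟩ := ‹Nonempty X›
  have h1 := MulAction.index_stabilizer_of_transitive Γ x
  rw [← h1]
  exact Subgroup.index_dvd_card _

theorem vertex_dvd (G : SimpleGraph V) (h : VertexTransitive G) (hne : Nonempty V) :
    Fintype.card V ∣ Nat.card (G ≃g G) := by
  rw [← Nat.card_eq_fintype_card]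
  exact dvd_of_trans (G ≃g G) V fun x y => h x y

/-- automorphisms act on the edges -/
def edgeAct (G : SimpleGraph V) : MulAction (G ≃g G) G.edgeSet where
  smul φ e := ⟨Sym2.map φ e.1, by
    obtain ⟨e, he⟩ := e
    induction e using Sym2.ind with
    | _ x y => exact φ.map_rel_iff'.2 he⟩
  one_smul e := by
    apply Subtype.ext
    change Sym2.map (fun x => x) e.1 = e.1
    exact congrFun Sym2.map_id' e.1
  mul_smul φ ψ e := by
    apply Subtype.ext
    change Sym2.map (fun x => φ (ψ x)) e.1 = Sym2.map φ (Sym2.map ψ e.1)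
    rw [Sym2.map_map]
    rfl

theorem edge_dvd (G : SimpleGraph V) (h : EdgeTransitive G) (hne : G.edgeSet.Nonempty) :
    Nat.card G.edgeSet ∣ Nat.card (G ≃g G) := by
  have : Nonempty G.edgeSet := hne.to_subtype
  have := edgeAct G
  have hs : ∀ x y : G.edgeSet, ∃ g : G ≃g G, (edgeAct G).toSMul.smul g x = y := by
    intro x y
    obtain ⟨φ, hφ⟩ := h x.1 x.2 y.1 y.2
    exact ⟨φ, Subtype.ext hφ⟩
  exact @dvd_of_trans (G ≃g G) G.edgeSet _ _ (edgeAct G) _ hs

end Pool.Agent.TH669.TF
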