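import Pool.Agent.TH669.TF.Rankin
import Pool.Agent.TH669.AD.Smooth

/-!
# Few integers have only small prime divisors
-/

set_option autoImplicit false

namespace Pool.Agent.TH669.TF

open Finset Real

open Classical in
/-- all but `η x` of the `n ≤ x` have a prime divisor `≥ n ^ (1 / C)` -/
theorem few_poly (η : ℝ) (hη : 0 < η) : ∃ (C : ℝ) (N0 : ℕ), 1 ≤ C ∧ ∀ x : ℕ,
    (((Ioc 0 x).filter (fun n => N0 < n ∧ ∀ p : ℕ, p.Prime → p ∣ n →
      C * log p < log n)).card : ℝ) ≤ η * x := by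
  wlog hη1 : η ≤ 1 generalizing η
  · obtain ⟨C, N0, hC, h⟩ := this 1 one_pos le_rfl
    refine ⟨C, N0, hC, fun x => (h x).trans ?_⟩
    apply mul_le_mul_of_nonneg_right (le_of_lt (not_le.1 hη1)) (Nat.cast_nonneg x)
  set M : ℝ := 2 * log (2 / η) + 16 * log 4 / η + 2 with hM
  have hlog2 : 0 ≤ log (2 / η) := by
    apply log_nonneg
    rw [le_div_iff₀ hη]
    linarith
  have hlog4 : 0 ≤ log 4 := log_nonneg (by norm_num)
  have hM2 : 2 ≤ M := by
    have : 0 ≤ 16 * log 4 / η := by positivity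
    linarith
  refine ⟨16 / η, ⌈exp M⌉₊, ?_, ?_⟩
  · rw [le_div_iff₀ hη]
    linarith
  intro x
  rcases le_or_gt x ⌈exp M⌉₊ with hx | hx
  · rw [filter_false_of_mem]
    · simp
      positivity
    · intro n hn
      rw [mem_Ioc] at hn
      rintro ⟨h1, -⟩
      omega
  have hxM : exp M ≤ x := by
    have h1 := Nat.le_ceil (exp M)
    have h2 : ((⌈exp M⌉₊ : ℕ) : ℝ) ≤ x := by exact_mod_cast hx.le
    linarith
  have hx0 : (0 : ℝ) < x := lt_of_lt_of_le (exp_pos M) hxM
  have hL : M ≤ log x := by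
    rw [le_log_iff_exp_le hx0]
    exact hxM
  set U : ℝ := η / 2 * x with hU
  have hU0 : 0 < U := by positivity
  have hlogU : log U = log x - log (2 / η) := by
    rw [hU, log_mul (by positivity) hx0.ne', show η / 2 = (2 / η)⁻¹ by rw [inv_div], log_inv]
    ring
  have hU2 : 1 / 2 * log x ≤ log U := by
    rw [hlogU]
    have : 0 ≤ 16 * log 4 / η := by positivity
    linarith
  have hU1 : 1 < U := by
    rw [← log_pos_iff hU0.le]
    linarith
  set y : ℕ := ⌊(x : ℝ) ^ (η / 16)⌋₊ with hy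
  have hx1 : (1 : ℝ) ≤ x := by
    have : (0 : ℝ) ≤ log x := by linarith
    rwa [log_nonneg_iff hx0] at this
  have hy1 : 1 ≤ y := by
    rw [hy, Nat.one_le_floor_iff]
    exact one_le_rpow hx1 (by positivity)
  have hy0 : (0 : ℝ) < y := by exact_mod_cast hy1
  have hlogy : log y ≤ η / 16 * log x := by
    rw [← log_rpow hx0]
    apply log_le_log hy0
    exact Nat.floor_le (by positivity)
  have hcount := Pool.Agent.TH669.AD.count3 x y hy1 U hU1
  set B3 := (Ioc 0 x).filter (fun n => (∀ p : ℕ, p.Prime → y < p → ¬ p ^ 2 ∣ n) ∧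
      U * ((∏ p ∈ Pool.Agent.TH669.AD.big y n, p : ℕ) : ℝ) < n) with hB3
  have hsub : (Ioc 0 x).filter (fun n => ⌈exp M⌉₊ < n ∧ ∀ p : ℕ, p.Prime → p ∣ n →
      16 / η * log p < log n) ⊆ Ioc 0 ⌊U⌋₊ ∪ B3 := by
    intro n hn
    rw [mem_filter, mem_Ioc] at hn
    obtain ⟨⟨hn0, hnx⟩, -, hp⟩ := hn
    rw [mem_union, mem_Ioc]
    by_cases hnU : n ≤ ⌊U⌋₊
    · exact Or.inl ⟨hn0, hnU⟩
    · right
      have hnU' : U < n := Nat.lt_of_floor_lt (not_le.1 hnU)
      have hn0' : (0 : ℝ) < n := by exact_mod_cast hn0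
      have hnx' : (n : ℝ) ≤ x := by exact_mod_cast hnx
      have hsm : ∀ p : ℕ, p.Prime → p ∣ n → p ≤ y := by
        intro p hpp hpn
        have h1 := hp p hpp hpn
        have hp0 : (0 : ℝ) < p := by exact_mod_cast hpp.pos
        have h2 : log n ≤ log x := log_le_log hn0' hnx'
        rw [hy]
        apply Nat.le_floor
        rw [← log_le_log_iff hp0 (by positivity), log_rpow hx0]
        have h3 : log p = η / 16 * (16 / η * log p) := by
          field_simp
        rw [h3]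
        exact mul_le_mul_of_nonneg_left (by linarith) (by positivity)
      rw [hB3, mem_filter, mem_Ioc]
      refine ⟨⟨hn0, hnx⟩, ?_, ?_⟩
      · intro p hpp hyp hd
        have := hsm p hpp ((dvd_pow_self p two_ne_zero).trans hd)
        omega
      · have : Pool.Agent.TH669.AD.big y n = ∅ := by
          rw [Pool.Agent.TH669.AD.big, filter_eq_empty_iff]
          intro p hpm hyp
          have := hsm p (Nat.prime_of_mem_primeFactors hpm) (Nat.dvd_of_mem_primeFactors hpm)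
          omega
        rw [this, prod_empty, Nat.cast_one, mul_one]
        exact hnU'
  have h1 : (((Ioc 0 x).filter (fun n => ⌈exp M⌉₊ < n ∧ ∀ p : ℕ, p.Prime → p ∣ n →
      16 / η * log p < log n)).card : ℝ) ≤ U + B3.card := by
    have h2 := (card_le_card hsub).trans (card_union_le _ _)
    rw [Nat.card_Ioc, Nat.sub_zero] at h2
    have h3 : ((⌊U⌋₊ + B3.card : ℕ) : ℝ) ≤ U + B3.card := by
      push_cast
      have := Nat.floor_le hU0.le
      linarith
    exact le_trans (by exact_mod_cast h2) h3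
  have hB : (B3.card : ℝ) ≤ η / 2 * x := by
    have hLpos : 0 < log x := by linarith
    have h4 : (B3.card : ℝ) * (1 / 2 * log x) ≤ B3.card * log U :=
      mul_le_mul_of_nonneg_left hU2 (Nat.cast_nonneg _)
    have h5 : 2 * (x : ℝ) * (log y + log 4) ≤ 2 * x * (η / 8 * log x) := by
      apply mul_le_mul_of_nonneg_left _ (by positivity)
      have h6 : 16 * log 4 / η ≤ log x := by linarith
      rw [div_le_iff₀ hη] at h6
      linarith
    have h7 : (B3.card : ℝ) * (1 / 2 * log x) ≤ (η / 2 * x) * (1 / 2 * log x) := by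
      calc (B3.card : ℝ) * (1 / 2 * log x) ≤ 2 * x * (η / 8 * log x) :=
            h4.trans (hcount.trans h5)
        _ = (η / 2 * x) * (1 / 2 * log x) := by ring
    exact le_of_mul_le_mul_right h7 (by linarith)
  rw [hU] at h1
  linarith

open Classical in
/-- the `n ≤ x` with all prime divisors at most `exp ((log x) ^ (1 / c))` -/
theorem few_rankin (c : ℝ) (hc : 2 < c) : ∃ x0 : ℕ, ∀ x : ℕ, x0 ≤ x →
    (((Ioc 0 x).filter (fun n => ∀ p : ℕ, p.Prime → p ∣ n →
      log p ≤ (log x) ^ (1 / c))).card : ℝ) ≤ x * exp (-(log x) ^ (1 - 1 / c) / 2) := by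
  have hc0 : 0 < c := by linarith
  have t1 : Filter.Tendsto (fun x : ℕ => log (x : ℝ)) Filter.atTop Filter.atTop :=
    tendsto_log_atTop.comp tendsto_natCast_atTop_atTop
  have t2 : Filter.Tendsto (fun x : ℕ => (log (x : ℝ)) ^ (1 - 2 / c)) Filter.atTop Filter.atTop :=
    (tendsto_rpow_atTop (by rw [sub_pos, div_lt_one hc0]; exact hc)).comp t1
  have t3 : Filter.Tendsto (fun x : ℕ => (log (x : ℝ)) ^ (1 / c)) Filter.atTop Filter.atTop :=
    (tendsto_rpow_atTop (by positivity)).comp t1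
  have e1 := t1.eventually_ge_atTop 1
  have e2 := t2.eventually_ge_atTop 48
  have e3 := t3.eventually_ge_atTop 2
  obtain ⟨x0, hx0⟩ := Filter.eventually_atTop.1 (e1.and (e2.and e3))
  refine ⟨x0, fun x hx => ?_⟩
  obtain ⟨h1, h2, h3⟩ := hx0 x hx
  set L := log (x : ℝ) with hL
  have hL0 : 0 < L := by linarith
  have hx1 : (1 : ℝ) < x := by
    have h : 0 < log (x : ℝ) := hL0
    exact (log_pos_iff (Nat.cast_nonneg x)).1 h
  have hxp : (0 : ℝ) < x := by linarith
  set y : ℕ := ⌊exp (L ^ (1 / c))⌋₊ with hy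
  have hy1 : 1 ≤ y := by
    rw [hy, Nat.one_le_floor_iff]
    exact one_le_exp (by positivity)
  have hy0 : (0 : ℝ) < y := by exact_mod_cast hy1
  have hlogy : log y ≤ L ^ (1 / c) := by
    rw [log_le_iff_le_exp hy0]
    exact Nat.floor_le (exp_pos _).le
  have hlogy0 : 0 ≤ log (y : ℝ) := log_natCast_nonneg y
  set σ : ℝ := 1 - (L ^ (1 / c))⁻¹ with hσ
  have hinv : (L ^ (1 / c))⁻¹ ≤ 1 / 2 := by
    have h := inv_anti₀ (by norm_num) h3
    linarith
  have hinv0 : 0 ≤ (L ^ (1 / c))⁻¹ := by positivity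
  have hr := rankin x y hy1 σ (by rw [hσ]; linarith) (by rw [hσ]; linarith)
  have hsub : (Ioc 0 x).filter (fun n => ∀ p : ℕ, p.Prime → p ∣ n → log p ≤ L ^ (1 / c)) ⊆
      (Ioc 0 x).filter (fun n => ∀ p : ℕ, p.Prime → p ∣ n → p ≤ y) := by
    intro n hn
    rw [mem_filter] at hn ⊢
    refine ⟨hn.1, fun p hp hd => ?_⟩
    have h := hn.2 p hp hd
    rw [hy]
    apply Nat.le_floor
    rwa [← log_le_iff_le_exp (by exact_mod_cast hp.pos)]
  have hcard := card_le_card hsub
  refine le_trans (by exact_mod_cast hcard) (hr.trans ?_)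
  have hσ1 : 1 - σ = (L ^ (1 / c))⁻¹ := by rw [hσ]; ring
  have hy3 : (y : ℝ) ^ (1 - σ) ≤ 3 := by
    rw [hσ1]
    calc (y : ℝ) ^ ((L ^ (1 / c))⁻¹) = exp (log y * (L ^ (1 / c))⁻¹) := rpow_def_of_pos hy0 _
      _ ≤ exp (L ^ (1 / c) * (L ^ (1 / c))⁻¹) :=
          exp_le_exp.2 (mul_le_mul_of_nonneg_right hlogy hinv0)
      _ = exp 1 := by rw [mul_inv_cancel₀ (by positivity)]
      _ ≤ 3 := by
          have := exp_one_lt_d9
          linarith
  have hpow : L ^ (1 - 1 / c) = L ^ (1 - 2 / c) * L ^ (1 / c) := by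
    rw [← rpow_add hL0]
    congr 1
    ring
  have hpow2 : L ^ (1 - 1 / c) = L * (L ^ (1 / c))⁻¹ := by
    rw [rpow_sub hL0, rpow_one, div_eq_mul_inv]
  have hmain : 4 * ((y : ℝ) ^ (1 - σ) * (1 + log y)) ≤ L ^ (1 - 1 / c) / 2 := by
    have h4 : (y : ℝ) ^ (1 - σ) * (1 + log y) ≤ 3 * (1 + L ^ (1 / c)) :=
      mul_le_mul hy3 (by linarith) (by linarith) (by norm_num)
    have h5 : 48 * L ^ (1 / c) ≤ L ^ (1 - 1 / c) := by
      rw [hpow]
      exact mul_le_mul_of_nonneg_right h2 (by positivity)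
    nlinarith
  calc (x : ℝ) ^ σ * exp (4 * ((y : ℝ) ^ (1 - σ) * (1 + log y)))
      ≤ (x : ℝ) ^ σ * exp (L ^ (1 - 1 / c) / 2) :=
        mul_le_mul_of_nonneg_left (exp_le_exp.2 hmain) (by positivity)
    _ = exp L * exp (-L ^ (1 - 1 / c) / 2) := by
        rw [rpow_def_of_pos hxp, ← hL, ← exp_add, ← exp_add]
        congr 1
        rw [hσ, mul_sub, ← hpow2]
        ring
    _ = x * exp (-L ^ (1 - 1 / c) / 2) := by
        rw [hL, exp_log hxp]

open Classical in
/-- the `n ≤ x` with all prime divisors at most `(log x) ^ A` -/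
theorem few_power (A : ℝ) (hA : 2 ≤ A) (ε : ℝ) (hε : 0 < ε) : ∃ x0 : ℕ, ∀ x : ℕ, x0 ≤ x →
    (((Ioc 0 x).filter (fun n => ∀ p : ℕ, p.Prime → p ∣ n →
      (p : ℝ) ≤ (log x) ^ A)).card : ℝ) ≤ (x : ℝ) ^ (1 - 1 / A + ε) := by
  have hA0 : 0 < A := by linarith
  wlog hε1 : ε ≤ 1 / A generalizing ε
  · obtain ⟨x0, h⟩ := this (1 / A) (by positivity) le_rfl
    refine ⟨max x0 1, fun x hx => (h x (le_of_max_le_left hx)).trans ?_⟩
    apply rpow_le_rpow_of_exponent_le
    · exact_mod_cast le_of_max_le_right hx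
    · linarith [not_le.1 hε1]
  have t1 : Filter.Tendsto (fun x : ℕ => log (x : ℝ)) Filter.atTop Filter.atTop :=
    tendsto_log_atTop.comp tendsto_natCast_atTop_atTop
  have hpos : 0 < A * ε / 2 := by positivity
  have o1 : (fun z : ℝ => 4 * (1 + A * log z)) =o[Filter.atTop] fun z => z ^ (A * ε / 2) := by
    apply Asymptotics.IsLittleO.const_mul_left
    apply Asymptotics.IsLittleO.add
    · rw [Asymptotics.isLittleO_const_left]
      right
      exact tendsto_norm_atTop_atTop.comp (tendsto_rpow_atTop hpos)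
    · exact (isLittleO_log_rpow_atTop hpos).const_mul_left A
  have o2 := o1.def (show (0 : ℝ) < ε / 2 by positivity)
  have e1 := t1.eventually_ge_atTop 1
  have e2 := t1.eventually o2
  obtain ⟨x0, hx0⟩ := Filter.eventually_atTop.1 (e1.and e2)
  refine ⟨x0, fun x hx => ?_⟩
  obtain ⟨h1, h2⟩ := hx0 x hx
  set L := log (x : ℝ) with hL
  have hL0 : 0 < L := by linarith
  have hlogL : 0 ≤ log L := log_nonneg h1
  have hx1 : (1 : ℝ) < x := by
    have h : 0 < log (x : ℝ) := hL0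
    exact (log_pos_iff (Nat.cast_nonneg x)).1 h
  have hxp : (0 : ℝ) < x := by linarith
  rw [norm_of_nonneg (by positivity), norm_of_nonneg (by positivity)] at h2
  set y : ℕ := ⌊L ^ A⌋₊ with hy
  have hy1 : 1 ≤ y := by
    rw [hy, Nat.one_le_floor_iff]
    exact one_le_rpow h1 hA0.le
  have hy0 : (0 : ℝ) < y := by exact_mod_cast hy1
  have hyL : (y : ℝ) ≤ L ^ A := Nat.floor_le (by positivity)
  have hlogy : log y ≤ A * log L := by
    rw [← log_rpow hL0]
    exact log_le_log hy0 hyL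
  have hlogy0 : 0 ≤ log (y : ℝ) := log_natCast_nonneg y
  have hAinv : 1 / A ≤ 1 / 2 := by
    rw [div_le_div_iff₀ hA0 (by norm_num)]
    linarith
  set σ : ℝ := 1 - 1 / A + ε / 2 with hσ
  have hr := rankin x y hy1 σ (by rw [hσ]; linarith) (by rw [hσ]; linarith)
  have hsub : (Ioc 0 x).filter (fun n => ∀ p : ℕ, p.Prime → p ∣ n → (p : ℝ) ≤ L ^ A) ⊆
      (Ioc 0 x).filter (fun n => ∀ p : ℕ, p.Prime → p ∣ n → p ≤ y) := by
    intro n hn
    rw [mem_filter] at hn ⊢
    refine ⟨hn.1, fun p hp hd => ?_⟩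
    rw [hy]
    exact Nat.le_floor (hn.2 p hp hd)
  have hcard := card_le_card hsub
  refine le_trans (by exact_mod_cast hcard) (hr.trans ?_)
  have hσ1 : 1 - σ = 1 / A - ε / 2 := by rw [hσ]; ring
  have hσ0 : 0 ≤ 1 - σ := by rw [hσ1]; linarith
  have hy3 : (y : ℝ) ^ (1 - σ) ≤ L * (L ^ (A * ε / 2))⁻¹ := by
    calc (y : ℝ) ^ (1 - σ) ≤ (L ^ A) ^ (1 - σ) := rpow_le_rpow hy0.le hyL hσ0
      _ = L ^ (1 - A * ε / 2) := by
          rw [← rpow_mul hL0.le]
          congr 1
          rw [hσ1]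
          field_simp
      _ = L * (L ^ (A * ε / 2))⁻¹ := by
          rw [rpow_sub hL0, rpow_one, div_eq_mul_inv]
  have hmain : 4 * ((y : ℝ) ^ (1 - σ) * (1 + log y)) ≤ ε / 2 * L := by
    calc 4 * ((y : ℝ) ^ (1 - σ) * (1 + log y))
        ≤ 4 * ((L * (L ^ (A * ε / 2))⁻¹) * (1 + A * log L)) := by
          apply mul_le_mul_of_nonneg_left _ (by norm_num)
          exact mul_le_mul hy3 (by linarith) (by linarith) (by positivity)
      _ = (4 * (1 + A * log L)) * (L * (L ^ (A * ε / 2))⁻¹) := by ring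
      _ ≤ (ε / 2 * L ^ (A * ε / 2)) * (L * (L ^ (A * ε / 2))⁻¹) :=
          mul_le_mul_of_nonneg_right h2 (by positivity)
      _ = ε / 2 * L := by
          have : L ^ (A * ε / 2) ≠ 0 := by positivity
          field_simp
  calc (x : ℝ) ^ σ * exp (4 * ((y : ℝ) ^ (1 - σ) * (1 + log y)))
      ≤ (x : ℝ) ^ σ * exp (ε / 2 * L) :=
        mul_le_mul_of_nonneg_left (exp_le_exp.2 hmain) (by positivity)
    _ = (x : ℝ) ^ (1 - 1 / A + ε) := by
        rw [rpow_def_of_pos hxp, rpow_def_of_pos hxp, ← hL, ← exp_add]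
        congr 1
        rw [hσ]
        ring

end Pool.Agent.TH669.TF
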