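import Pool.Agent.TH669.TF.Few
import Pool.Agent.TH669.TF.Act

/-!
# Orbit sizes of automorphism groups of twin-free graphs
-/

set_option autoImplicit false

namespace Pool.Agent.TH669.TF

open Finset Real

variable {V : Type} [Fintype V]

theorem log_chrom_le (G : SimpleGraph V) :
    log (G.chromaticNumber.toNat : ℝ) ≤ log (Fintype.card V : ℝ) := by
  have h1 : G.chromaticNumber ≤ Fintype.card V := G.colorable_of_fintype.chromaticNumber_le
  have h2 : G.chromaticNumber.toNat ≤ Fintype.card V := by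
    have := ENat.toNat_le_toNat h1 (ENat.natCast_ne_top _)
    simpa using this
  by_cases h0 : G.chromaticNumber.toNat = 0
  · rw [h0]
    simp only [Nat.cast_zero, Real.log_zero]
    exact Real.log_natCast_nonneg _
  · apply Real.log_le_log
    · have : 0 < G.chromaticNumber.toNat := Nat.pos_of_ne_zero h0
      exact_mod_cast this
    · exact_mod_cast h2

/-- the divisors of the order of the automorphism group which are not in `E` are small -/
def DivBound (E : Set ℕ) (b : ℝ → ℝ) : Prop :=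
  ∀ (V : Type) [Fintype V] (G : SimpleGraph V) [DecidableRel G.Adj], TwinFree G →
    1 < (G.adjMatrix ℝ).rank → ∀ n : ℕ, n ∣ Nat.card (G ≃g G) → n ∉ E →
      log n ≤ b (G.adjMatrix ℝ).rank

omit [Fintype V] in
theorem orbit_dvd (G : SimpleGraph V) (Γ : Subgroup (G ≃g G)) (v : V) :
    Nat.card (MulAction.orbit Γ v) ∣ Nat.card (G ≃g G) := by
  classical
  have h2 : Nat.card (MulAction.orbit Γ v) ∣ Nat.card Γ := by
    rw [Nat.card_coe_set_eq, ← MulAction.index_stabilizer]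
    exact Subgroup.index_dvd_card _
  exact h2.trans (Subgroup.card_subgroup_dvd_card Γ)

theorem orbits_bound (E : Set ℕ) (b : ℝ → ℝ) (hb : DivBound E b) (G : SimpleGraph V)
    [DecidableRel G.Adj] (hG : TwinFree G) (hr : 1 < (G.adjMatrix ℝ).rank)
    (Γ : Subgroup (G ≃g G)) (hΓ : ∀ v : V, Nat.card (MulAction.orbit Γ v) ∉ E) :
    log (Fintype.card V : ℝ) ≤ log (Nat.card (MulAction.orbitRel.Quotient Γ V) : ℝ) +
      b (G.adjMatrix ℝ).rank := by
  classical
  have hV : Nonempty V := by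
    by_contra hne
    rw [not_nonempty_iff] at hne
    have h1 := (G.adjMatrix ℝ).rank_le_card_width
    rw [Fintype.card_eq_zero] at h1
    omega
  have hfin : Finite (MulAction.orbitRel.Quotient Γ V) := Quotient.finite _
  have := Fintype.ofFinite (MulAction.orbitRel.Quotient Γ V)
  have hsz : ∀ v : V, (Nat.card (MulAction.orbit Γ v) : ℝ) ≤ exp (b (G.adjMatrix ℝ).rank) := by
    intro v
    have h1 := hb V G hG hr _ (orbit_dvd G Γ v) (hΓ v)
    have hpos : (0 : ℝ) < Nat.card (MulAction.orbit Γ v) := by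
      have : 0 < Nat.card (MulAction.orbit Γ v) := Nat.card_pos_iff.2 ⟨⟨⟨v, MulAction.mem_orbit_self v⟩⟩, Set.toFinite _⟩
      exact_mod_cast this
    rwa [log_le_iff_le_exp hpos] at h1
  have hcard : (Fintype.card V : ℝ) ≤ (Nat.card (MulAction.orbitRel.Quotient Γ V) : ℝ) *
      exp (b (G.adjMatrix ℝ).rank) := by
    have e := Nat.card_congr (MulAction.selfEquivSigmaOrbits Γ V)
    rw [Nat.card_eq_fintype_card, Nat.card_sigma] at e
    rw [e, Nat.cast_sum, Nat.card_eq_fintype_card, ← nsmul_eq_mul, ← card_univ]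
    exact sum_le_card_nsmul _ _ _ fun ω _ => hsz _
  have hV0 : (0 : ℝ) < Fintype.card V := by exact_mod_cast Fintype.card_pos
  have hq : (0 : ℝ) < Nat.card (MulAction.orbitRel.Quotient Γ V) := by
    by_contra h
    have h' : (Nat.card (MulAction.orbitRel.Quotient Γ V) : ℝ) = 0 :=
      le_antisymm (not_lt.1 h) (Nat.cast_nonneg _)
    rw [h', zero_mul] at hcard
    linarith
  have h3 := log_le_log hV0 hcard
  rwa [log_mul hq.ne' (exp_pos _).ne', log_exp] at h3

theorem edge_bound (E : Set ℕ) (b : ℝ → ℝ) (hb : DivBound E b) (G : SimpleGraph V)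
    [DecidableRel G.Adj] (hG : TwinFree G) (hr : 1 < (G.adjMatrix ℝ).rank)
    (hc : G.Connected) (hE : EdgeTransitive G) (hn : Nat.card G.edgeSet ∉ E) :
    log (Fintype.card V : ℝ) ≤ log 2 + b (G.adjMatrix ℝ).rank := by
  classical
  have hV0 : 0 < Fintype.card V := by
    have := hc.nonempty
    exact Fintype.card_pos
  have hne : G.edgeSet.Nonempty := by
    by_contra hne
    rw [Set.not_nonempty_iff_eq_empty, SimpleGraph.edgeSet_eq_empty] at hne
    subst hne
    have h0 : (SimpleGraph.adjMatrix ℝ (⊥ : SimpleGraph V)) = 0 := by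
      ext i j
      simp [SimpleGraph.adjMatrix_apply]
    have : (SimpleGraph.adjMatrix ℝ (⊥ : SimpleGraph V)).rank = 0 := by
      rw [h0, Matrix.rank_zero]
    omega
  have h1 := hb V G hG hr _ (edge_dvd G hE hne) hn
  have hpos : 0 < Nat.card G.edgeSet := by
    have : Nonempty G.edgeSet := hne.to_subtype
    exact Nat.card_pos
  have h2 := hc.card_vert_le_card_edgeSet_add_one
  have h3 : Nat.card V ≤ 2 * Nat.card G.edgeSet := by omega
  rw [Nat.card_eq_fintype_card] at h3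
  have h4 : (Fintype.card V : ℝ) ≤ 2 * Nat.card G.edgeSet := by exact_mod_cast h3
  have h5 : (0 : ℝ) < Nat.card G.edgeSet := by exact_mod_cast hpos
  have h6 := log_le_log (show (0 : ℝ) < Fintype.card V by exact_mod_cast hV0) h4
  rw [log_mul (by norm_num) h5.ne'] at h6
  linarith

theorem log_succ_le (r : ℕ) (hr : 1 < r) : log ((r : ℝ) + 1) ≤ 2 * log r := by
  have h1 : (2 : ℝ) ≤ r := by exact_mod_cast hr
  have h2 : (r : ℝ) + 1 ≤ (r : ℝ) ^ 2 := by nlinarith
  calc log ((r : ℝ) + 1) ≤ log ((r : ℝ) ^ 2) := log_le_log (by linarith) h2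
    _ = 2 * log r := by rw [log_pow]; push_cast; ring

open Classical in
theorem poly (η : ℝ) (hη : 0 < η) : ∃ (C : ℝ) (E : Set ℕ),
    (∀ x : ℕ, (((Ioc 0 x).filter (fun n => n ∈ E)).card : ℝ) ≤ η * x) ∧
    DivBound E (fun r => C * log r) := by
  obtain ⟨C, N0, hC, hcount⟩ := few_poly η hη
  obtain ⟨E, hEm⟩ : ∃ E : Set ℕ, ∀ n, n ∈ E ↔
      (N0 < n ∧ ∀ p : ℕ, p.Prime → p ∣ n → C * log p < log n) := ⟨{n | _}, fun _ => Iff.rfl⟩
  refine ⟨max (2 * C) (log N0 / log 2), E, fun x => ?_, ?_⟩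
  · refine le_trans (Nat.cast_le.2 (card_le_card fun n hn => ?_)) (hcount x)
    rw [mem_filter] at hn ⊢
    exact ⟨hn.1, (hEm n).1 hn.2⟩
  · intro V _ G _ hG hr n hn hnE
    have hr2 : (2 : ℝ) ≤ (G.adjMatrix ℝ).rank := by exact_mod_cast hr
    have hlr : 0 < log ((G.adjMatrix ℝ).rank : ℝ) := log_pos (by linarith)
    change log (n : ℝ) ≤ max (2 * C) (log N0 / log 2) * log ((G.adjMatrix ℝ).rank : ℝ)
    by_cases hN : n ≤ N0
    · rcases Nat.eq_zero_or_pos n with h0 | h0
      · rw [h0, Nat.cast_zero, log_zero]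
        have : 0 ≤ max (2 * C) (log N0 / log 2) := le_max_of_le_left (by linarith)
        positivity
      · have h1 : log (n : ℝ) ≤ log N0 := log_le_log (by exact_mod_cast h0) (by exact_mod_cast hN)
        have h2 : log 2 ≤ log ((G.adjMatrix ℝ).rank : ℝ) := log_le_log (by norm_num) hr2
        have hl2 : 0 < log 2 := log_pos (by norm_num)
        have hN0 : 0 ≤ log (N0 : ℝ) := log_natCast_nonneg N0
        calc log (n : ℝ) ≤ log N0 := h1
          _ = log N0 / log 2 * log 2 := by field_simp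
          _ ≤ log N0 / log 2 * log ((G.adjMatrix ℝ).rank : ℝ) :=
              mul_le_mul_of_nonneg_left h2 (by positivity)
          _ ≤ _ := mul_le_mul_of_nonneg_right (le_max_right _ _) hlr.le
    · have h1 : ¬ ∀ p : ℕ, p.Prime → p ∣ n → C * log p < log n := fun h =>
        hnE ((hEm n).2 ⟨not_le.1 hN, h⟩)
      push Not at h1
      obtain ⟨p, hp, hpn, hlog⟩ := h1
      have h2 := prime_le_card G hG p hp (hpn.trans hn)
      have h3 : (p : ℝ) ≤ (G.adjMatrix ℝ).rank + 1 := by exact_mod_cast h2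
      have h4 : log (p : ℝ) ≤ 2 * log ((G.adjMatrix ℝ).rank : ℝ) :=
        (log_le_log (by exact_mod_cast hp.pos) h3).trans (log_succ_le _ hr)
      calc log (n : ℝ) ≤ C * log p := hlog
        _ ≤ C * (2 * log ((G.adjMatrix ℝ).rank : ℝ)) :=
            mul_le_mul_of_nonneg_left h4 (by linarith)
        _ = 2 * C * log ((G.adjMatrix ℝ).rank : ℝ) := by ring
        _ ≤ _ := mul_le_mul_of_nonneg_right (le_max_left _ _) hlr.le

open Classical in
theorem quasi (c : ℝ) (hc : 2 < c) : ∃ E : Set ℕ,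
    (∃ x0 : ℕ, ∀ x : ℕ, x0 ≤ x → (((Ioc 0 x).filter (fun n => n ∈ E)).card : ℝ) ≤
      x * exp (-(log x) ^ (1 - 1 / c) / 2)) ∧
    DivBound E (fun r => (2 * log r) ^ c) := by
  have hc0 : 0 < c := by linarith
  obtain ⟨E, hEm⟩ : ∃ E : Set ℕ, ∀ n, n ∈ E ↔
      (1 < n ∧ ∀ p : ℕ, p.Prime → p ∣ n → log p ≤ (log n) ^ (1 / c)) :=
    ⟨{n | _}, fun _ => Iff.rfl⟩
  refine ⟨E, ?_, ?_⟩
  · obtain ⟨x0, h⟩ := few_rankin c hc
    refine ⟨x0, fun x hx => le_trans ?_ (h x hx)⟩
    apply Nat.cast_le.2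
    apply card_le_card
    intro n hn
    rw [mem_filter, mem_Ioc] at hn ⊢
    refine ⟨hn.1, fun p hp hd => (((hEm n).1 hn.2).2 p hp hd).trans ?_⟩
    have hn0 : (0 : ℝ) < n := by exact_mod_cast hn.1.1
    exact rpow_le_rpow (log_natCast_nonneg n) (log_le_log hn0 (by exact_mod_cast hn.1.2))
      (by positivity)
  · intro V _ G _ hG hr n hn hnE
    have hr2 : (2 : ℝ) ≤ (G.adjMatrix ℝ).rank := by exact_mod_cast hr
    have hlr : 0 < log ((G.adjMatrix ℝ).rank : ℝ) := log_pos (by linarith)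
    change log (n : ℝ) ≤ (2 * log ((G.adjMatrix ℝ).rank : ℝ)) ^ c
    by_cases hN : n ≤ 1
    · have : log (n : ℝ) = 0 := by
        interval_cases n <;> simp
      rw [this]
      positivity
    · have h1 : ¬ ∀ p : ℕ, p.Prime → p ∣ n → log p ≤ (log n) ^ (1 / c) := fun h =>
        hnE ((hEm n).2 ⟨not_le.1 hN, h⟩)
      push Not at h1
      obtain ⟨p, hp, hpn, hlog⟩ := h1
      have h2 := prime_le_card G hG p hp (hpn.trans hn)
      have h3 : (p : ℝ) ≤ (G.adjMatrix ℝ).rank + 1 := by exact_mod_cast h2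
      have h4 : log (p : ℝ) ≤ 2 * log ((G.adjMatrix ℝ).rank : ℝ) :=
        (log_le_log (by exact_mod_cast hp.pos) h3).trans (log_succ_le _ hr)
      have hn0 : 0 ≤ log (n : ℝ) := log_natCast_nonneg n
      calc log (n : ℝ) = ((log n) ^ (1 / c)) ^ c := by
            rw [← rpow_mul hn0, one_div, inv_mul_cancel₀ hc0.ne', rpow_one]
        _ ≤ (2 * log ((G.adjMatrix ℝ).rank : ℝ)) ^ c :=
            rpow_le_rpow (by positivity) (hlog.le.trans h4) hc0.le

open Classical in
theorem power (A : ℝ) (hA : 2 ≤ A) : ∃ E : Set ℕ,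
    (∀ ε : ℝ, 0 < ε → ∃ x0 : ℕ, ∀ x : ℕ, x0 ≤ x →
      (((Ioc 0 x).filter (fun n => n ∈ E)).card : ℝ) ≤ (x : ℝ) ^ (1 - 1 / A + ε)) ∧
    DivBound E (fun r => (r + 1) ^ (1 / A)) := by
  have hA0 : 0 < A := by linarith
  obtain ⟨E, hEm⟩ : ∃ E : Set ℕ, ∀ n, n ∈ E ↔
      (1 < n ∧ ∀ p : ℕ, p.Prime → p ∣ n → (p : ℝ) ≤ (log n) ^ A) :=
    ⟨{n | _}, fun _ => Iff.rfl⟩
  refine ⟨E, ?_, ?_⟩
  · intro ε hε
    obtain ⟨x0, h⟩ := few_power A hA ε hε
    refine ⟨x0, fun x hx => le_trans ?_ (h x hx)⟩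
    apply Nat.cast_le.2
    apply card_le_card
    intro n hn
    rw [mem_filter, mem_Ioc] at hn ⊢
    refine ⟨hn.1, fun p hp hd => (((hEm n).1 hn.2).2 p hp hd).trans ?_⟩
    have hn0 : (0 : ℝ) < n := by exact_mod_cast hn.1.1
    exact rpow_le_rpow (log_natCast_nonneg n) (log_le_log hn0 (by exact_mod_cast hn.1.2))
      (by positivity)
  · intro V _ G _ hG hr n hn hnE
    change log (n : ℝ) ≤ (((G.adjMatrix ℝ).rank : ℝ) + 1) ^ (1 / A)
    by_cases hN : n ≤ 1
    · have : log (n : ℝ) = 0 := by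
        interval_cases n <;> simp
      rw [this]
      positivity
    · have h1 : ¬ ∀ p : ℕ, p.Prime → p ∣ n → (p : ℝ) ≤ (log n) ^ A := fun h =>
        hnE ((hEm n).2 ⟨not_le.1 hN, h⟩)
      push Not at h1
      obtain ⟨p, hp, hpn, hlog⟩ := h1
      have h2 := prime_le_card G hG p hp (hpn.trans hn)
      have h3 : (p : ℝ) ≤ (G.adjMatrix ℝ).rank + 1 := by exact_mod_cast h2
      have hn0 : 0 ≤ log (n : ℝ) := log_natCast_nonneg n
      calc log (n : ℝ) = ((log n) ^ A) ^ (1 / A) := by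
            rw [← rpow_mul hn0, one_div, mul_inv_cancel₀ hA0.ne', rpow_one]
        _ ≤ (((G.adjMatrix ℝ).rank : ℝ) + 1) ^ (1 / A) :=
            rpow_le_rpow (by positivity) (hlog.le.trans h3) (by positivity)

end Pool.Agent.TH669.TF
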