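import Mathlib
import Pool.Agent.W824.BJ.Spec

/-!
# Automorphisms of prime order of twin-free graphs and the rank
-/

set_option autoImplicit false

namespace Pool.Agent.TH669.TF

open Polynomial

/-- an endomorphism of prime order of a rational vector space needs dimension at least `p - 1` -/
theorem end_order {W : Type*} [AddCommGroup W] [Module ℚ W] [Module.Finite ℚ W]
    (T : Module.End ℚ W) (p : ℕ) (hp : p.Prime) (hT : T ^ p = 1) (hT1 : T ≠ 1) :
    p ≤ Module.finrank ℚ W + 1 := by
  have hm : minpoly ℚ T ∣ (X ^ p - 1 : ℚ[X]) := by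
    apply minpoly.dvd
    rw [map_sub, map_pow, aeval_X, map_one, hT, sub_self]
  have hfac : cyclotomic p ℚ * (X - 1) = X ^ p - 1 := by
    have : Fact p.Prime := ⟨hp⟩
    exact cyclotomic_prime_mul_X_sub_one ℚ p
  have hirr : Irreducible (cyclotomic p ℚ) := cyclotomic.irreducible_rat hp.pos
  have hdeg : (minpoly ℚ T).natDegree ≤ Module.finrank ℚ W := by
    have h1 := Polynomial.natDegree_le_of_dvd (LinearMap.minpoly_dvd_charpoly T)
      (LinearMap.charpoly_monic T).ne_zero
    rwa [LinearMap.charpoly_natDegree] at h1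
  by_cases hd : cyclotomic p ℚ ∣ minpoly ℚ T
  · have h0 : minpoly ℚ T ≠ 0 := minpoly.ne_zero (Algebra.IsIntegral.isIntegral T)
    have h1 := Polynomial.natDegree_le_of_dvd hd h0
    rw [natDegree_cyclotomic, Nat.totient_prime hp] at h1
    omega
  · exfalso
    have hc : IsCoprime (minpoly ℚ T) (cyclotomic p ℚ) :=
      ((hirr.coprime_iff_not_dvd).2 hd).symm
    rw [← hfac] at hm
    have h2 : minpoly ℚ T ∣ (X - 1 : ℚ[X]) := hc.dvd_of_dvd_mul_left hm
    apply hT1
    have h3 := (minpoly.dvd_iff (A := ℚ) (x := T) (p := (X - 1 : ℚ[X]))).1 h2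
    rw [map_sub, aeval_X, map_one, sub_eq_zero] at h3
    exact h3

variable {V : Type*} [Fintype V]

/-- no two nonadjacent vertices have the same neighbours -/
def TwinFree (G : SimpleGraph V) : Prop :=
  ∀ u v : V, u ≠ v → ¬ G.Adj u v → G.neighborSet u ≠ G.neighborSet v

theorem rank_rat_le (G : SimpleGraph V) [DecidableRel G.Adj] :
    (G.adjMatrix ℚ).rank ≤ (G.adjMatrix ℝ).rank := by
  have h := Pool.Agent.W824.BJ.rank_map_le (Int.castRingHom ℝ) Int.cast_injective
    (Int.castRingHom ℚ) (G.adjMatrix ℤ)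
  have e1 : (G.adjMatrix ℤ).map (Int.castRingHom ℝ) = G.adjMatrix ℝ := by
    ext i j
    simp [SimpleGraph.adjMatrix_apply]
  have e2 : (G.adjMatrix ℤ).map (Int.castRingHom ℚ) = G.adjMatrix ℚ := by
    ext i j
    simp [SimpleGraph.adjMatrix_apply]
  rwa [e1, e2] at h

/-- **Every prime dividing the order of the automorphism group of a twin-free graph is at most the
rank plus one.** -/
theorem prime_le (G : SimpleGraph V) [DecidableRel G.Adj] (hG : TwinFree G) (p : ℕ) (hp : p.Prime)
    (φ : G ≃g G) (hφ : φ ^ p = 1) (hφ1 : φ ≠ 1) : p ≤ (G.adjMatrix ℝ).rank + 1 := by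
  classical
  refine le_trans ?_ (Nat.add_le_add_right (rank_rat_le G) 1)
  set B : Matrix V V ℚ := G.adjMatrix ℚ with hB
  have hadj : ∀ x y, B (φ x) (φ y) = B x y := by
    intro x y
    rw [hB, SimpleGraph.adjMatrix_apply, SimpleGraph.adjMatrix_apply]
    have h : G.Adj (φ x) (φ y) ↔ G.Adj x y := φ.map_rel_iff'
    by_cases hc : G.Adj x y
    · rw [if_pos hc, if_pos (h.2 hc)]
    · rw [if_neg hc, if_neg (fun h' => hc (h.1 h'))]
  let P : (V → ℚ) →ₗ[ℚ] (V → ℚ) := LinearMap.funLeft ℚ ℚ (φ : V → V)
  have hPa : ∀ (f : V → ℚ) (x : V), P f x = f (φ x) := fun f x => rfl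
  have hcomm : ∀ f : V → ℚ, P (B.mulVecLin f) = B.mulVecLin (P f) := by
    intro f
    funext x
    rw [hPa, Matrix.mulVecLin_apply, Matrix.mulVecLin_apply, Matrix.mulVec, Matrix.mulVec,
      dotProduct, dotProduct]
    refine (Fintype.sum_equiv φ.toEquiv _ _ fun y => ?_).symm
    rw [show B (φ x) (φ.toEquiv y) = B x y from hadj x y, hPa]
    rfl
  have hmap : ∀ w ∈ LinearMap.range B.mulVecLin, P w ∈ LinearMap.range B.mulVecLin := by
    rintro w ⟨f, rfl⟩
    exact ⟨P f, (hcomm f).symm⟩
  let T : Module.End ℚ (LinearMap.range B.mulVecLin) := P.restrict hmap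
  have hPpow : ∀ (k : ℕ) (f : V → ℚ) (x : V), (P ^ k) f x = f ((φ ^ k) x) := by
    intro k
    induction k with
    | zero => intro f x; rfl
    | succ k ih =>
      intro f x
      rw [pow_succ, Module.End.mul_apply, ih, hPa, pow_succ']
      rfl
  have hTpow : ∀ (k : ℕ) (w : LinearMap.range B.mulVecLin),
      (((T ^ k) w : LinearMap.range B.mulVecLin) : V → ℚ) = (P ^ k) (w : V → ℚ) := by
    intro k
    induction k with
    | zero => intro w; rfl
    | succ k ih =>
      intro w
      rw [pow_succ, Module.End.mul_apply, ih, pow_succ, Module.End.mul_apply]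
      rfl
  have hTp : T ^ p = 1 := by
    apply LinearMap.ext
    intro w
    apply Subtype.ext
    rw [hTpow]
    funext x
    rw [hPpow, hφ]
    rfl
  have hT1 : T ≠ 1 := by
    intro hT
    apply hφ1
    ext v
    by_contra hne
    have hne' : φ v ≠ v := hne
    have hinv : ∀ u, B (φ u) v = B u v := by
      intro u
      let w : LinearMap.range B.mulVecLin := ⟨B.mulVecLin (Pi.single v 1), ⟨_, rfl⟩⟩
      have hw : ∀ x, (w : V → ℚ) x = B x v := by
        intro x
        change B.mulVecLin (Pi.single v 1) x = B x v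
        rw [Matrix.mulVecLin_apply, Matrix.mulVec_single_one]
        rfl
      have h1 : ((T w : LinearMap.range B.mulVecLin) : V → ℚ) u = (w : V → ℚ) u := by
        rw [hT]
        rfl
      have h2 : ((T w : LinearMap.range B.mulVecLin) : V → ℚ) u = (w : V → ℚ) (φ u) := rfl
      rw [← hw, ← hw, ← h2, h1]
    have hN : G.neighborSet (φ v) = G.neighborSet v := by
      ext x
      obtain ⟨u, rfl⟩ := φ.surjective x
      have h1 : B (φ u) (φ v) = B (φ u) v := by rw [hadj, hinv]
      rw [hB, SimpleGraph.adjMatrix_apply, SimpleGraph.adjMatrix_apply] at h1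
      rw [SimpleGraph.mem_neighborSet, SimpleGraph.mem_neighborSet, G.adj_comm (φ v),
        G.adj_comm v]
      by_cases hc : G.Adj (φ u) v
      · rw [if_pos hc] at h1
        by_cases hd : G.Adj (φ u) (φ v)
        · exact ⟨fun _ => hc, fun _ => hd⟩
        · rw [if_neg hd] at h1
          exact absurd h1 (by norm_num)
      · rw [if_neg hc] at h1
        by_cases hd : G.Adj (φ u) (φ v)
        · rw [if_pos hd] at h1
          exact absurd h1 (by norm_num)
        · exact ⟨fun h => absurd h hd, fun h => absurd h hc⟩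
    apply hG (φ v) v hne' _ hN
    intro hadj'
    have : v ∈ G.neighborSet (φ v) := hadj'
    rw [hN] at this
    exact G.irrefl this
  exact end_order T p hp hTp hT1

end Pool.Agent.TH669.TF
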