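import Mathlib

/-!
# Rankin's bound for smooth numbers
-/

set_option autoImplicit false

namespace Pool.Agent.TH669.TF

open Finset Real

/-- `n ↦ n ^ (-σ)` as a monoid homomorphism -/
noncomputable def powHom (σ : ℝ) : ℕ →* ℝ where
  toFun n := (n : ℝ) ^ (-σ)
  map_one' := by simp
  map_mul' m n := by
    rw [Nat.cast_mul, mul_rpow (Nat.cast_nonneg m) (Nat.cast_nonneg n)]

theorem powHom_apply (σ : ℝ) (n : ℕ) : powHom σ n = (n : ℝ) ^ (-σ) := rfl

theorem prime_pow_le (σ : ℝ) (hσ : 1 / 2 ≤ σ) (p : ℕ) (hp : p.Prime) :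
    (p : ℝ) ^ (-σ) ≤ 3 / 4 := by
  have h2 : (2 : ℝ) ≤ p := by exact_mod_cast hp.two_le
  have h1 : (p : ℝ) ^ (-σ) ≤ (2 : ℝ) ^ (-(1 / 2 : ℝ)) := by
    calc (p : ℝ) ^ (-σ) ≤ (p : ℝ) ^ (-(1 / 2 : ℝ)) :=
          rpow_le_rpow_of_exponent_le (by linarith) (by linarith)
      _ ≤ (2 : ℝ) ^ (-(1 / 2 : ℝ)) :=
          rpow_le_rpow_of_nonpos (by norm_num) h2 (by norm_num)
  refine h1.trans ?_
  rw [rpow_neg (by norm_num), ← sqrt_eq_rpow]
  have h3 : (4 / 3 : ℝ) ≤ √2 := by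
    apply le_sqrt_of_sq_le
    norm_num
  calc (√2)⁻¹ ≤ (4 / 3 : ℝ)⁻¹ := inv_anti₀ (by norm_num) h3
    _ = 3 / 4 := by norm_num

theorem one_sub_inv_le (t : ℝ) (h0 : 0 ≤ t) (h : t ≤ 3 / 4) : (1 - t)⁻¹ ≤ exp (4 * t) := by
  have h1 : 0 < 1 - t := by linarith
  have h2 : (1 - t)⁻¹ - 1 ≤ 4 * t := by
    have h3 : (1 - t)⁻¹ - 1 = t / (1 - t) := by
      field_simp
      ring
    rw [h3, div_le_iff₀ h1]
    nlinarith
  calc (1 - t)⁻¹ = ((1 - t)⁻¹ - 1) + 1 := by ring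
    _ ≤ exp ((1 - t)⁻¹ - 1) := add_one_le_exp _
    _ ≤ exp (4 * t) := exp_le_exp.2 h2

theorem sum_primes_le (y : ℕ) (hy : 1 ≤ y) (σ : ℝ) (hσ1 : σ ≤ 1) :
    ∑ p ∈ (y + 1).primesBelow, (p : ℝ) ^ (-σ) ≤ (y : ℝ) ^ (1 - σ) * (1 + log y) := by
  have hy0 : (0 : ℝ) < y := by exact_mod_cast hy
  have h1 : ∑ p ∈ (y + 1).primesBelow, (p : ℝ) ^ (-σ) ≤
      ∑ n ∈ Ioc 0 y, (y : ℝ) ^ (1 - σ) * (n : ℝ)⁻¹ := by
    have hsub : (y + 1).primesBelow ⊆ Ioc 0 y := by
      intro p hp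
      rw [Nat.mem_primesBelow] at hp
      rw [mem_Ioc]
      exact ⟨hp.2.pos, by omega⟩
    refine le_trans (sum_le_sum_of_subset_of_nonneg hsub fun n _ _ => ?_)
      (sum_le_sum fun n hn => ?_)
    · positivity
    · rw [mem_Ioc] at hn
      have hn0 : (0 : ℝ) < n := by exact_mod_cast hn.1
      have hny : (n : ℝ) ≤ y := by exact_mod_cast hn.2
      have : (n : ℝ) ^ (-σ) = (n : ℝ) ^ (1 - σ) * (n : ℝ)⁻¹ := by
        rw [← rpow_neg_one, ← rpow_add hn0]
        congr 1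
        ring
      rw [this]
      apply mul_le_mul_of_nonneg_right _ (by positivity)
      exact rpow_le_rpow hn0.le hny (by linarith)
  refine h1.trans ?_
  rw [← mul_sum]
  apply mul_le_mul_of_nonneg_left _ (by positivity)
  have h2 := harmonic_le_one_add_log y
  have h3 : ((harmonic y : ℚ) : ℝ) = ∑ n ∈ Ioc 0 y, (n : ℝ)⁻¹ := by
    rw [harmonic_eq_sum_Icc]
    push_cast
    rfl
  rwa [← h3]

open Classical in
/-- Rankin's bound -/
theorem rankin (x y : ℕ) (hy : 1 ≤ y) (σ : ℝ) (hσ : 1 / 2 ≤ σ) (hσ1 : σ ≤ 1) :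
    (((Ioc 0 x).filter (fun n => ∀ p : ℕ, p.Prime → p ∣ n → p ≤ y)).card : ℝ) ≤
      (x : ℝ) ^ σ * exp (4 * ((y : ℝ) ^ (1 - σ) * (1 + log y))) := by
  set S := (Ioc 0 x).filter (fun n => ∀ p : ℕ, p.Prime → p ∣ n → p ≤ y) with hS
  have hlt : ∀ {p : ℕ}, p.Prime → ‖powHom σ p‖ < 1 := by
    intro p hp
    rw [powHom_apply, norm_of_nonneg (by positivity)]
    exact lt_of_le_of_lt (prime_pow_le σ hσ p hp) (by norm_num)
  obtain ⟨-, h2⟩ := EulerProduct.summable_and_hasSum_smoothNumbers_prod_primesBelow_geometric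
    (f := powHom σ) hlt (y + 1)
  -- the finite sum is at most the product
  have hmem : ∀ n ∈ S, n ∈ (y + 1).smoothNumbers := by
    intro n hn
    rw [hS, mem_filter, mem_Ioc] at hn
    rw [Nat.mem_smoothNumbers']
    intro p hp hd
    have := hn.2 p hp hd
    omega
  have h3 : ∑ n ∈ S, powHom σ n ≤ ∏ p ∈ (y + 1).primesBelow, (1 - powHom σ p)⁻¹ := by
    have h4 := sum_le_hasSum (S.attach.image (fun n => (⟨n.1, hmem n.1 n.2⟩ :
      (y + 1).smoothNumbers))) (fun n _ => ?_) h2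
    · rw [sum_image] at h4
      · rw [← sum_attach]
        exact h4
      · intro a _ b _ hab
        apply Subtype.ext
        exact congrArg (fun z : (y + 1).smoothNumbers => (z : ℕ)) hab
    · rw [powHom_apply]
      positivity
  have h5 : ∏ p ∈ (y + 1).primesBelow, (1 - powHom σ p)⁻¹ ≤
      exp (4 * ((y : ℝ) ^ (1 - σ) * (1 + log y))) := by
    calc ∏ p ∈ (y + 1).primesBelow, (1 - powHom σ p)⁻¹
        ≤ ∏ p ∈ (y + 1).primesBelow, exp (4 * (p : ℝ) ^ (-σ)) := by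
          apply prod_le_prod
          · intro p hp
            rw [Nat.mem_primesBelow] at hp
            have := prime_pow_le σ hσ p hp.2
            rw [powHom_apply]
            apply inv_nonneg.2
            linarith
          · intro p hp
            rw [Nat.mem_primesBelow] at hp
            rw [powHom_apply]
            exact one_sub_inv_le _ (by positivity) (prime_pow_le σ hσ p hp.2)
      _ = exp (4 * ∑ p ∈ (y + 1).primesBelow, (p : ℝ) ^ (-σ)) := by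
          rw [← exp_sum, mul_sum]
      _ ≤ _ := by
          apply exp_le_exp.2
          exact mul_le_mul_of_nonneg_left (sum_primes_le y hy σ hσ1) (by norm_num)
  have h6 : (S.card : ℝ) ≤ (x : ℝ) ^ σ * ∑ n ∈ S, powHom σ n := by
    rw [mul_sum, card_eq_sum_ones, Nat.cast_sum]
    apply sum_le_sum
    intro n hn
    rw [hS, mem_filter, mem_Ioc] at hn
    have hn0 : (0 : ℝ) < n := by exact_mod_cast hn.1.1
    have hnx : (n : ℝ) ≤ x := by exact_mod_cast hn.1.2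
    rw [powHom_apply, rpow_neg hn0.le, ← div_eq_mul_inv, Nat.cast_one, one_le_div (by positivity)]
    exact rpow_le_rpow hn0.le hnx (by linarith)
  exact h6.trans (mul_le_mul_of_nonneg_left (h3.trans h5) (by positivity))

end Pool.Agent.TH669.TF
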